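import Mathlib

/-!
Divisor counts `τ(m) = 2^(v m) * u m` with `u m` odd, and the Euler products of
`u(m) z^(v m) m^(-s)` for `|z| = 1`.
-/

set_option autoImplicit false

open Filter Topology

namespace Pool.Agent.TH840.EB

/-- the number of divisors -/
def tau (m : ℕ) : ℕ := m.divisors.card

/-- the exponent of `2` in the number of divisors -/
def v (m : ℕ) : ℕ := (tau m).factorization 2

/-- the odd part of the number of divisors -/
def u (m : ℕ) : ℕ := tau m / 2 ^ v m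

lemma tau_eq (m : ℕ) : tau m = 2 ^ v m * u m :=
  (Nat.ordProj_mul_ordCompl_eq_self (tau m) 2).symm

lemma tau_zero : tau 0 = 0 := by simp [tau]

lemma u_zero : u 0 = 0 := by simp [u, tau_zero]

lemma tau_pos {m : ℕ} (hm : m ≠ 0) : 0 < tau m := Finset.card_pos.2 ⟨1, by simp [hm]⟩

lemma u_le (m : ℕ) : u m ≤ tau m := Nat.div_le_self _ _

lemma tau_one : tau 1 = 1 := by simp [tau]

lemma v_one : v 1 = 0 := by simp [v, tau_one]

lemma u_one : u 1 = 1 := by simp [u, tau_one, v_one]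

lemma tau_mul {m n : ℕ} (h : m.Coprime n) : tau (m * n) = tau m * tau n :=
  Nat.Coprime.card_divisors_mul h

lemma v_mul {m n : ℕ} (hm : m ≠ 0) (hn : n ≠ 0) (h : m.Coprime n) : v (m * n) = v m + v n := by
  unfold v
  rw [tau_mul h, Nat.factorization_mul (tau_pos hm).ne' (tau_pos hn).ne']
  rfl

lemma u_mul {m n : ℕ} (h : m.Coprime n) : u (m * n) = u m * u n := by
  unfold u v
  rw [tau_mul h]
  exact Nat.ordCompl_mul _ _ _

lemma tau_prime_pow {p : ℕ} (hp : p.Prime) (e : ℕ) : tau (p ^ e) = e + 1 := by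
  unfold tau
  rw [Nat.divisors_prime_pow hp]
  simp

lemma tau_prime {p : ℕ} (hp : p.Prime) : tau p = 2 := by
  have := tau_prime_pow hp 1
  rwa [pow_one] at this

lemma v_prime {p : ℕ} (hp : p.Prime) : v p = 1 := by
  unfold v
  rw [tau_prime hp]
  exact Nat.Prime.factorization_self Nat.prime_two

lemma u_prime {p : ℕ} (hp : p.Prime) : u p = 1 := by
  unfold u
  rw [v_prime hp, tau_prime hp]
  norm_num

/-- the summand -/
noncomputable def F (z : ℂ) (s : ℝ) (m : ℕ) : ℂ :=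
  (u m : ℂ) * z ^ v m * (((m : ℝ) ^ (-s) : ℝ) : ℂ)

lemma F_zero (z : ℂ) (s : ℝ) : F z s 0 = 0 := by simp [F, u_zero]

lemma F_one (z : ℂ) (s : ℝ) : F z s 1 = 1 := by simp [F, u_one, v_one]

lemma F_mul (z : ℂ) (s : ℝ) {m n : ℕ} (h : m.Coprime n) : F z s (m * n) = F z s m * F z s n := by
  rcases Nat.eq_zero_or_pos m with rfl | hm
  · simp [F_zero]
  rcases Nat.eq_zero_or_pos n with rfl | hn
  · simp [F_zero]
  unfold F
  rw [u_mul h, v_mul hm.ne' hn.ne' h, pow_add, Nat.cast_mul, Nat.cast_mul,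
    Real.mul_rpow (by positivity) (by positivity)]
  push_cast
  ring

lemma norm_F {z : ℂ} (hz : ‖z‖ = 1) (s : ℝ) (m : ℕ) :
    ‖F z s m‖ = u m * (m : ℝ) ^ (-s) := by
  unfold F
  rw [norm_mul, norm_mul, norm_pow, hz, one_pow, mul_one, Complex.norm_natCast,
    Complex.norm_real, Real.norm_eq_abs, abs_of_nonneg (by positivity)]

lemma summable_tau {s : ℝ} (hs : 1 < s) : Summable (fun m : ℕ => (tau m : ℝ) * (m : ℝ) ^ (-s)) := by
  have h1 : LSeriesSummable (1 : ℕ → ℂ) (s : ℂ) := LSeriesSummable_one_iff.2 (by simpa using hs)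
  have h2 : LSeriesSummable (LSeries.convolution (1 : ℕ → ℂ) (1 : ℕ → ℂ)) (s : ℂ) :=
    h1.convolution h1
  have h3 := h2.norm
  refine h3.congr fun m => ?_
  rw [LSeries.norm_term_eq, LSeries.convolution_def]
  rcases Nat.eq_zero_or_pos m with rfl | hm
  · simp [tau_zero]
  · rw [if_neg hm.ne', Complex.ofReal_re, Real.rpow_neg (by positivity), div_eq_mul_inv]
    congr 1
    simp only [Pi.one_apply, mul_one, Finset.sum_const, nsmul_eq_mul, Complex.norm_natCast]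
    congr 1
    unfold tau
    rw [← Nat.map_div_right_divisors, Finset.card_map]

lemma summable_F {z : ℂ} (hz : ‖z‖ = 1) {s : ℝ} (hs : 1 < s) :
    Summable (fun m => ‖F z s m‖) := by
  refine (summable_tau hs).of_nonneg_of_le (fun m => norm_nonneg _) fun m => ?_
  rw [norm_F hz]
  have : (u m : ℝ) ≤ tau m := by exact_mod_cast u_le m
  gcongr

lemma F_prime_pow (z : ℂ) (s : ℝ) {p : ℕ} (e : ℕ) :
    F z s (p ^ e) = (u (p ^ e) : ℂ) * z ^ v (p ^ e) * (((((p : ℝ) ^ (-s)) ^ e : ℝ)) : ℂ) := by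
  unfold F
  congr 2
  push_cast
  rw [← Real.rpow_natCast, ← Real.rpow_natCast, ← Real.rpow_mul (by positivity),
    ← Real.rpow_mul (by positivity), mul_comm]

/-- the bound for the tail of an Euler factor -/
lemma tail_bound {x : ℝ} (hx0 : 0 ≤ x) (hx : x ≤ 1 / 2) :
    Summable (fun e : ℕ => ((e : ℝ) + 3) * x ^ e) ∧ ∑' e : ℕ, ((e : ℝ) + 3) * x ^ e ≤ 8 := by
  have hx1 : ‖x‖ < 1 := by rw [Real.norm_eq_abs, abs_of_nonneg hx0]; linarith
  have h1 := hasSum_coe_mul_geometric_of_norm_lt_one hx1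
  have h2 := (hasSum_geometric_of_norm_lt_one hx1).mul_left 3
  have h3 := h1.add h2
  have h4 : HasSum (fun e : ℕ => ((e : ℝ) + 3) * x ^ e) (x / (1 - x) ^ 2 + 3 * (1 - x)⁻¹) := by
    have h5 : (fun e : ℕ => ((e : ℝ) + 3) * x ^ e) = fun e : ℕ => (e : ℝ) * x ^ e + 3 * x ^ e := by
      funext e
      ring
    rw [h5]
    exact h3
  refine ⟨h4.summable, ?_⟩
  rw [h4.tsum_eq]
  have h5 : 0 < 1 - x := by linarith
  have h6 : x / (1 - x) ^ 2 ≤ 2 := by
    rw [div_le_iff₀ (by positivity)]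
    nlinarith
  have h7 : (1 - x)⁻¹ ≤ 2 := by
    rw [inv_le_comm₀ h5 (by norm_num)]
    linarith
  linarith

lemma u_prime_pow_le {p : ℕ} (hp : p.Prime) (e : ℕ) : (u (p ^ e) : ℝ) ≤ e + 1 := by
  have h := u_le (p ^ e)
  rw [tau_prime_pow hp] at h
  exact_mod_cast h

/-- bound for an Euler factor -/
lemma factor_bound {z : ℂ} (hz : ‖z‖ = 1) {s : ℝ} {p : ℕ} (hp : p.Prime)
    (hx : (p : ℝ) ^ (-s) ≤ 1 / 2) :
    ‖∑' e : ℕ, F z s (p ^ e)‖ ≤
      Real.exp (z.re * (p : ℝ) ^ (-s) + 9 * ((p : ℝ) ^ (-s)) ^ 2) := by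
  set x : ℝ := (p : ℝ) ^ (-s) with hxdef
  have hx0 : 0 ≤ x := by positivity
  obtain ⟨hs1, hs2⟩ := tail_bound hx0 hx
  have hb : ∀ e : ℕ, ‖F z s (p ^ (e + 2))‖ ≤ x ^ 2 * (((e : ℝ) + 3) * x ^ e) := by
    intro e
    rw [F_prime_pow, norm_mul, norm_mul, norm_pow, hz, one_pow, mul_one, Complex.norm_natCast,
      Complex.norm_real, Real.norm_eq_abs, abs_of_nonneg (by positivity), ← hxdef]
    have h1 := u_prime_pow_le hp (e + 2)
    push_cast at h1
    calc (u (p ^ (e + 2)) : ℝ) * x ^ (e + 2) ≤ ((e : ℝ) + 2 + 1) * x ^ (e + 2) := by gcongr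
      _ = x ^ 2 * (((e : ℝ) + 3) * x ^ e) := by ring
  have hsum2 : Summable (fun e : ℕ => F z s (p ^ (e + 2))) :=
    Summable.of_norm_bounded (hs1.mul_left _) hb
  have hsum : Summable (fun e : ℕ => F z s (p ^ e)) := (summable_nat_add_iff 2).1 hsum2
  have htail : ‖∑' e : ℕ, F z s (p ^ (e + 2))‖ ≤ x ^ 2 * 8 := by
    refine (tsum_of_norm_bounded (hs1.mul_left (x ^ 2)).hasSum hb).trans ?_
    rw [tsum_mul_left]
    gcongr
  have h0 : ∑' e : ℕ, F z s (p ^ e) = 1 + z * (x : ℂ) + ∑' e : ℕ, F z s (p ^ (e + 2)) := by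
    rw [← hsum.sum_add_tsum_nat_add 2, Finset.sum_range_succ, Finset.sum_range_one, pow_zero,
      F_one, F_prime_pow, pow_one, pow_one, u_prime hp, v_prime hp, pow_one]
    push_cast
    ring
  have h1 : ‖(1 : ℂ) + z * (x : ℂ)‖ ≤ 1 + z.re * x + x ^ 2 := by
    have h2 : z.re ^ 2 + z.im ^ 2 = 1 := by
      have := Complex.sq_norm z
      rw [hz, Complex.normSq_apply] at this
      nlinarith
    have h3 : ‖(1 : ℂ) + z * (x : ℂ)‖ ^ 2 = 1 + 2 * (z.re * x) + x ^ 2 := by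
      rw [Complex.sq_norm, Complex.normSq_apply]
      simp only [Complex.add_re, Complex.one_re, Complex.mul_re, Complex.ofReal_re,
        Complex.ofReal_im, Complex.add_im, Complex.one_im, Complex.mul_im]
      nlinarith
    have h4 : |z.re| ≤ 1 := by
      have := Complex.abs_re_le_norm z
      rwa [hz] at this
    have h5 : -(1 / 2 : ℝ) ≤ z.re * x := by
      have := abs_le.1 h4
      nlinarith
    have h6 : ‖(1 : ℂ) + z * (x : ℂ)‖ ^ 2 ≤ (1 + z.re * x + x ^ 2) ^ 2 := by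
      rw [h3]
      nlinarith [sq_nonneg (z.re * x), sq_nonneg x, mul_nonneg hx0 hx0]
    exact le_of_sq_le_sq h6 (by nlinarith)
  rw [h0]
  calc ‖1 + z * (x : ℂ) + ∑' e : ℕ, F z s (p ^ (e + 2))‖
      ≤ (1 + z.re * x + x ^ 2) + x ^ 2 * 8 := (norm_add_le _ _).trans (add_le_add h1 htail)
    _ = (z.re * x + 9 * x ^ 2) + 1 := by ring
    _ ≤ Real.exp (z.re * x + 9 * x ^ 2) := Real.add_one_le_exp _

end Pool.Agent.TH840.EB
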