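import Mathlib
import Pool.Agent.TH840.EB.Mult

set_option autoImplicit false

open Filter Topology

namespace Pool.Agent.TH840.EB

/-- the sum of `p^(-s)` over the primes -/
noncomputable def P (s : ℝ) : ℝ := ∑' p : Nat.Primes, ((p : ℕ) : ℝ) ^ (-s)

/-- the zeta function on the real axis -/
noncomputable def Z (s : ℝ) : ℝ := ∑' n : ℕ, (n : ℝ) ^ (-s)

/-- the constant in the exponents -/
noncomputable def K : ℝ := 9 * ∑' p : Nat.Primes, ((p : ℕ) : ℝ) ^ (-2 : ℝ)

lemma two_le_prime (p : Nat.Primes) : (2 : ℝ) ≤ ((p : ℕ) : ℝ) := by exact_mod_cast p.2.two_le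

lemma x_le {s : ℝ} (hs : 1 < s) (p : Nat.Primes) : ((p : ℕ) : ℝ) ^ (-s) ≤ 1 / 2 := by
  have h2 := two_le_prime p
  calc ((p : ℕ) : ℝ) ^ (-s) ≤ ((p : ℕ) : ℝ) ^ (-1 : ℝ) :=
        Real.rpow_le_rpow_of_exponent_le (by linarith) (by linarith)
    _ = (((p : ℕ) : ℝ))⁻¹ := Real.rpow_neg_one _
    _ ≤ 1 / 2 := by
        rw [one_div]
        exact inv_anti₀ (by norm_num) h2

lemma x_pos (s : ℝ) (p : Nat.Primes) : 0 < ((p : ℕ) : ℝ) ^ (-s) := by
  have h2 := two_le_prime p
  positivity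

lemma summable_P {s : ℝ} (hs : 1 < s) : Summable (fun p : Nat.Primes => ((p : ℕ) : ℝ) ^ (-s)) :=
  Nat.Primes.summable_rpow.2 (by linarith)

lemma sq_le {s : ℝ} (hs : 1 < s) (p : Nat.Primes) :
    (((p : ℕ) : ℝ) ^ (-s)) ^ 2 ≤ ((p : ℕ) : ℝ) ^ (-2 : ℝ) := by
  have h2 := two_le_prime p
  rw [← Real.rpow_natCast, ← Real.rpow_mul (by linarith)]
  exact Real.rpow_le_rpow_of_exponent_le (by linarith) (by push_cast; linarith)

lemma summable_sq {s : ℝ} (hs : 1 < s) :
    Summable (fun p : Nat.Primes => (((p : ℕ) : ℝ) ^ (-s)) ^ 2) :=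
  (summable_P (s := 2) (by norm_num)).of_nonneg_of_le (fun p => by positivity) (sq_le hs)

lemma sum_sq_le {s : ℝ} (hs : 1 < s) :
    9 * ∑' p : Nat.Primes, (((p : ℕ) : ℝ) ^ (-s)) ^ 2 ≤ K := by
  unfold K
  have := (summable_sq hs).tsum_le_tsum (sq_le hs) (summable_P (s := 2) (by norm_num))
  linarith

lemma K_nonneg : 0 ≤ K := by
  unfold K
  have : 0 ≤ ∑' p : Nat.Primes, ((p : ℕ) : ℝ) ^ (-2 : ℝ) := tsum_nonneg fun p => by positivity
  positivity

/-- bound for the Dirichlet series -/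
lemma norm_L_le {z : ℂ} (hz : ‖z‖ = 1) {s : ℝ} (hs : 1 < s) :
    ‖∑' m : ℕ, F z s m‖ ≤ Real.exp (z.re * P s + K) := by
  have hprod := EulerProduct.eulerProduct_hasProd (F_one z s) (fun {m n} h => F_mul z s h)
    (summable_F hz hs) (F_zero z s)
  have h1 : Tendsto (fun S : Finset Nat.Primes => ‖∏ p ∈ S, ∑' e : ℕ, F z s ((p : ℕ) ^ e)‖) atTop
      (𝓝 ‖∑' m : ℕ, F z s m‖) := by
    have := hprod
    rw [HasProd, SummationFilter.unconditional] at this
    exact this.norm
  have hc : HasSum (fun p : Nat.Primes => z.re * ((p : ℕ) : ℝ) ^ (-s) +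
      9 * (((p : ℕ) : ℝ) ^ (-s)) ^ 2)
      (z.re * P s + 9 * ∑' p : Nat.Primes, (((p : ℕ) : ℝ) ^ (-s)) ^ 2) :=
    ((summable_P hs).hasSum.mul_left _).add ((summable_sq hs).hasSum.mul_left _)
  have h2 : Tendsto (fun S : Finset Nat.Primes => Real.exp (∑ p ∈ S,
      (z.re * ((p : ℕ) : ℝ) ^ (-s) + 9 * (((p : ℕ) : ℝ) ^ (-s)) ^ 2))) atTop
      (𝓝 (Real.exp (z.re * P s + 9 * ∑' p : Nat.Primes, (((p : ℕ) : ℝ) ^ (-s)) ^ 2))) := by
    rw [HasSum, SummationFilter.unconditional] at hc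
    exact (Real.continuous_exp.tendsto _).comp hc
  have h3 : ‖∑' m : ℕ, F z s m‖ ≤
      Real.exp (z.re * P s + 9 * ∑' p : Nat.Primes, (((p : ℕ) : ℝ) ^ (-s)) ^ 2) := by
    refine le_of_tendsto_of_tendsto' h1 h2 fun S => ?_
    rw [norm_prod, Real.exp_sum]
    exact Finset.prod_le_prod (fun p _ => norm_nonneg _)
      (fun p _ => factor_bound hz p.2 (x_le hs p))
  refine h3.trans (Real.exp_le_exp.2 ?_)
  have := sum_sq_le hs
  linarith

lemma summable_Z {s : ℝ} (hs : 1 < s) : Summable (fun n : ℕ => (n : ℝ) ^ (-s)) :=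
  Real.summable_nat_rpow.2 (by linarith)

/-- Euler product of zeta -/
lemma hasProd_Z {s : ℝ} (hs : 1 < s) :
    HasProd (fun p : Nat.Primes => (1 - ((p : ℕ) : ℝ) ^ (-s))⁻¹) (Z s) := by
  have hs0 : -s ≠ 0 := by linarith
  have h := EulerProduct.eulerProduct_hasProd (R := ℝ) (f := fun n : ℕ => (n : ℝ) ^ (-s))
    (by simp) (fun {m n} _ => by
      push_cast
      exact Real.mul_rpow (by positivity) (by positivity))
    (by
      refine (summable_Z hs).congr fun n => ?_
      rw [Real.norm_eq_abs, abs_of_nonneg (by positivity)])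
    (by simp [Real.zero_rpow hs0])
  have he : (fun p : Nat.Primes => (1 - ((p : ℕ) : ℝ) ^ (-s))⁻¹) =
      fun p : Nat.Primes => ∑' e : ℕ, ((((p : ℕ) ^ e : ℕ) : ℝ)) ^ (-s) := by
    funext p
    have hx0 := x_pos s p
    have hx := x_le hs p
    rw [← tsum_geometric_of_lt_one hx0.le (by linarith)]
    congr 1
    funext e
    push_cast
    rw [← Real.rpow_natCast, ← Real.rpow_natCast, ← Real.rpow_mul (by positivity),
      ← Real.rpow_mul (by positivity), mul_comm]
  rw [he]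
  exact h

lemma exp_P_le {s : ℝ} (hs : 1 < s) : Real.exp (P s) ≤ Z s := by
  have h1 := hasProd_Z hs
  have h2 := (summable_P hs).hasSum
  rw [HasProd, SummationFilter.unconditional] at h1
  rw [HasSum, SummationFilter.unconditional] at h2
  have h3 := (Real.continuous_exp.tendsto _).comp h2
  refine le_of_tendsto_of_tendsto' h3 h1 fun S => ?_
  simp only [Function.comp_apply]
  rw [Real.exp_sum]
  refine Finset.prod_le_prod (fun p _ => (Real.exp_pos _).le) (fun p _ => ?_)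
  have hx0 := x_pos s p
  have hx := x_le hs p
  rw [le_inv_comm₀ (Real.exp_pos _) (by linarith), ← Real.exp_neg]
  have := Real.add_one_le_exp (-((p : ℕ) : ℝ) ^ (-s))
  linarith

lemma Z_le {s : ℝ} (hs : 1 < s) : Z s ≤ Real.exp (P s + K) := by
  have h1 := hasProd_Z hs
  have h2 : HasSum (fun p : Nat.Primes => ((p : ℕ) : ℝ) ^ (-s) + 9 * (((p : ℕ) : ℝ) ^ (-s)) ^ 2)
      (P s + 9 * ∑' p : Nat.Primes, (((p : ℕ) : ℝ) ^ (-s)) ^ 2) :=
    (summable_P hs).hasSum.add ((summable_sq hs).hasSum.mul_left _)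
  rw [HasProd, SummationFilter.unconditional] at h1
  rw [HasSum, SummationFilter.unconditional] at h2
  have h3 := (Real.continuous_exp.tendsto _).comp h2
  have h4 : Z s ≤ Real.exp (P s + 9 * ∑' p : Nat.Primes, (((p : ℕ) : ℝ) ^ (-s)) ^ 2) := by
    refine le_of_tendsto_of_tendsto' h1 h3 fun S => ?_
    simp only [Function.comp_apply]
    rw [Real.exp_sum]
    refine Finset.prod_le_prod (fun p _ => ?_) (fun p _ => ?_)
    · have hx := x_le hs p
      exact inv_nonneg.2 (by linarith)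
    · have hx0 := x_pos s p
      have hx := x_le hs p
      set x := ((p : ℕ) : ℝ) ^ (-s)
      have h5 : (1 - x)⁻¹ ≤ 1 + (x + 9 * x ^ 2) := by
        rw [inv_le_iff_one_le_mul₀ (by linarith)]
        nlinarith [mul_pos hx0 hx0, mul_nonneg (mul_pos hx0 hx0).le (by linarith : 0 ≤ 1 / 2 - x)]
      have := Real.add_one_le_exp (x + 9 * x ^ 2)
      linarith
  refine h4.trans (Real.exp_le_exp.2 ?_)
  have := sum_sq_le hs
  linarith

lemma tendsto_Z : Tendsto (fun s : ℝ => (s - 1) * Z s) (𝓝[>] 1) (𝓝 1) := by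
  refine tendsto_sub_mul_tsum_nat_rpow.congr fun s => ?_
  unfold Z
  congr 2
  funext n
  rw [Real.rpow_neg (by positivity), one_div]

lemma tendsto_P : Tendsto P (𝓝[>] 1) atTop := by
  have h1 : Tendsto (fun s : ℝ => s - 1) (𝓝[>] 1) (𝓝[>] 0) := by
    refine tendsto_nhdsWithin_iff.2 ⟨?_, ?_⟩
    · have : Tendsto (fun s : ℝ => s - 1) (𝓝 1) (𝓝 (1 - 1)) :=
        (continuous_id.sub continuous_const).tendsto 1
      rw [sub_self] at this
      exact this.mono_left nhdsWithin_le_nhds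
    · filter_upwards [self_mem_nhdsWithin] with s hs
      have hs1 : (1 : ℝ) < s := hs
      exact sub_pos.2 hs1
  have h2 : Tendsto (fun s : ℝ => (s - 1)⁻¹) (𝓝[>] 1) atTop := tendsto_inv_nhdsGT_zero.comp h1
  have h3 : Tendsto Z (𝓝[>] 1) atTop := by
    have h4 := h2.atTop_mul_pos one_pos tendsto_Z
    refine h4.congr' ?_
    filter_upwards [self_mem_nhdsWithin] with s hs
    have hs1 : (1 : ℝ) < s := hs
    have : s - 1 ≠ 0 := (sub_pos.2 hs1).ne'
    field_simp
  have h5 : Tendsto (fun s => Real.log (Z s) - K) (𝓝[>] 1) atTop :=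
    tendsto_atTop_add_const_right _ _ (Real.tendsto_log_atTop.comp h3)
  refine tendsto_atTop_mono' _ ?_ h5
  filter_upwards [self_mem_nhdsWithin] with s hs
  have h6 := Z_le hs
  have h7 : 0 < Z s := lt_of_lt_of_le (Real.exp_pos _) (exp_P_le hs)
  have h8 := Real.log_le_log h7 h6
  rw [Real.log_exp] at h8
  linarith

/-- decay of the Dirichlet series for `z ≠ 1` -/
lemma tendsto_L {z : ℂ} (hz : ‖z‖ = 1) (hz1 : z ≠ 1) :
    Tendsto (fun s : ℝ => ((s - 1 : ℝ) : ℂ) * ∑' m : ℕ, F z s m) (𝓝[>] 1) (𝓝 0) := by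
  have hre : z.re < 1 := by
    have h1 : z.re ≤ 1 := by
      have := Complex.re_le_norm z
      rwa [hz] at this
    rcases lt_or_eq_of_le h1 with h2 | h2
    · exact h2
    · exfalso
      apply hz1
      have h3 : z.re ^ 2 + z.im ^ 2 = 1 := by
        have := Complex.sq_norm z
        rw [hz, Complex.normSq_apply] at this
        nlinarith
      rw [h2] at h3
      have h4 : z.im = 0 := by nlinarith
      exact Complex.ext h2 h4
  rw [tendsto_zero_iff_norm_tendsto_zero]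
  have h5 : Tendsto (fun s : ℝ => (s - 1) * Z s * (Real.exp K * Real.exp (-((1 - z.re) * P s))))
      (𝓝[>] 1) (𝓝 (1 * (Real.exp K * 0))) := by
    refine tendsto_Z.mul (Tendsto.mul tendsto_const_nhds ?_)
    exact Real.tendsto_exp_neg_atTop_nhds_zero.comp
      (tendsto_P.const_mul_atTop (by linarith : 0 < 1 - z.re))
  rw [mul_zero, mul_zero] at h5
  refine squeeze_zero' (Eventually.of_forall fun s => norm_nonneg _) ?_ h5
  filter_upwards [self_mem_nhdsWithin] with s hs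
  have hs1 : (0 : ℝ) < s - 1 := sub_pos.2 hs
  rw [norm_mul, Complex.norm_real, Real.norm_eq_abs, abs_of_pos hs1]
  calc (s - 1) * ‖∑' m : ℕ, F z s m‖ ≤ (s - 1) * Real.exp (z.re * P s + K) := by
        gcongr
        exact norm_L_le hz hs
    _ = (s - 1) * Real.exp (P s) * (Real.exp K * Real.exp (-((1 - z.re) * P s))) := by
        rw [mul_assoc, ← Real.exp_add, ← Real.exp_add]
        congr 2
        ring
    _ ≤ (s - 1) * Z s * (Real.exp K * Real.exp (-((1 - z.re) * P s))) := by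
        gcongr
        exact exp_P_le hs

end Pool.Agent.TH840.EB
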