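import Mathlib
import Pool.Agent.TH840.EB.Euler

set_option autoImplicit false

open Filter Topology

namespace Pool.Agent.TH840.EB

/-- the Dirichlet series of `u` -/
noncomputable def G (s : ℝ) : ℝ := ∑' m : ℕ, (u m : ℝ) * (m : ℝ) ^ (-s)

lemma summable_G {s : ℝ} (hs : 1 < s) : Summable (fun m : ℕ => (u m : ℝ) * (m : ℝ) ^ (-s)) := by
  refine (summable_tau hs).of_nonneg_of_le (fun m => by positivity) fun m => ?_
  have : (u m : ℝ) ≤ tau m := by exact_mod_cast u_le m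
  gcongr

lemma hasProd_G {s : ℝ} (hs : 1 < s) :
    HasProd (fun p : Nat.Primes => ∑' e : ℕ, (u ((p : ℕ) ^ e) : ℝ) * (((p : ℕ) : ℝ) ^ (-s)) ^ e)
      (G s) := by
  have h := EulerProduct.eulerProduct_hasProd (R := ℝ)
    (f := fun m : ℕ => (u m : ℝ) * (m : ℝ) ^ (-s))
    (by simp [u_one]) (fun {m n} h => by
      rw [u_mul h]
      push_cast
      rw [Real.mul_rpow (by positivity) (by positivity)]
      ring)
    (by
      refine (summable_G hs).congr fun n => ?_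
      rw [Real.norm_eq_abs, abs_of_nonneg (by positivity)])
    (by simp [u_zero])
  have he : (fun p : Nat.Primes => ∑' e : ℕ, (u ((p : ℕ) ^ e) : ℝ) *
      (((p : ℕ) : ℝ) ^ (-s)) ^ e) =
      fun p : Nat.Primes => ∑' e : ℕ, (u ((p : ℕ) ^ e) : ℝ) *
        ((((p : ℕ) ^ e : ℕ) : ℝ)) ^ (-s) := by
    funext p
    congr 1
    funext e
    push_cast
    rw [← Real.rpow_natCast, ← Real.rpow_natCast, ← Real.rpow_mul (by positivity),
      ← Real.rpow_mul (by positivity), mul_comm (-s)]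
  rw [he]
  exact h

lemma u_odd_pow_le {p : ℕ} (hp : p.Prime) (j : ℕ) : (u (p ^ (2 * j + 1)) : ℝ) ≤ j + 1 := by
  have h : u (p ^ (2 * j + 1)) ≤ j + 1 := by
    have h1 := tau_eq (p ^ (2 * j + 1))
    have h2 := tau_prime_pow hp (2 * j + 1)
    rw [h2] at h1
    have h3 : v (p ^ (2 * j + 1)) ≠ 0 := by
      unfold v
      rw [h2]
      have h4 : 2 ∣ 2 * j + 1 + 1 := by omega
      exact (Nat.Prime.factorization_pos_of_dvd Nat.prime_two (by omega) h4).ne'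
    obtain ⟨w, hw⟩ := Nat.exists_eq_succ_of_ne_zero h3
    rw [hw, Nat.succ_eq_add_one, pow_succ] at h1
    have h5 : 1 ≤ 2 ^ w := Nat.one_le_two_pow
    have h6 : u (p ^ (2 * j + 1)) ≤ 2 ^ w * u (p ^ (2 * j + 1)) := Nat.le_mul_of_pos_left _ h5
    have h7 : 2 ^ w * 2 * u (p ^ (2 * j + 1)) = 2 * (2 ^ w * u (p ^ (2 * j + 1))) := by ring
    omega
  exact_mod_cast h

/-- sharp bound for the Euler factor at `z = 1` -/
lemma factor_G {p : ℕ} (hp : p.Prime) {x : ℝ} (hx0 : 0 < x) (hx : x ≤ 1 / 2) :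
    ∑' e : ℕ, (u (p ^ e) : ℝ) * x ^ e ≤ (1 - x ^ 3) * ((1 - x)⁻¹ * ((1 - x ^ 2)⁻¹) ^ 2) := by
  set y := x ^ 2 with hy
  have hy0 : 0 < y := by positivity
  have hy1 : y < 1 := by nlinarith
  have hyn : ‖y‖ < 1 := by rw [Real.norm_eq_abs, abs_of_nonneg hy0.le]; exact hy1
  have g1 := hasSum_coe_mul_geometric_of_norm_lt_one hyn
  have g2 := hasSum_geometric_of_norm_lt_one hyn
  -- even part
  have e1 : HasSum (fun j : ℕ => (2 * (j : ℝ) + 1) * y ^ j) (2 * (y / (1 - y) ^ 2) + (1 - y)⁻¹) := by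
    have h := (g1.mul_left 2).add g2
    have he : (fun j : ℕ => (2 * (j : ℝ) + 1) * y ^ j) =
        fun j : ℕ => 2 * ((j : ℝ) * y ^ j) + y ^ j := by
      funext j
      ring
    rw [he]
    exact h
  have o1 : HasSum (fun j : ℕ => ((j : ℝ) + 1) * (y ^ j * x)) ((y / (1 - y) ^ 2 + (1 - y)⁻¹) * x) := by
    have h := (g1.add g2).mul_right x
    have he : (fun j : ℕ => ((j : ℝ) + 1) * (y ^ j * x)) =
        fun j : ℕ => ((j : ℝ) * y ^ j + y ^ j) * x := by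
      funext j
      ring
    rw [he]
    exact h
  have hev : ∀ j : ℕ, (u (p ^ (2 * j)) : ℝ) * x ^ (2 * j) ≤ (2 * (j : ℝ) + 1) * y ^ j := by
    intro j
    have h := u_prime_pow_le hp (2 * j)
    push_cast at h
    have hxp : x ^ (2 * j) = y ^ j := by rw [hy, pow_mul]
    rw [hxp]
    gcongr
  have hod : ∀ j : ℕ, (u (p ^ (2 * j + 1)) : ℝ) * x ^ (2 * j + 1) ≤
      ((j : ℝ) + 1) * (y ^ j * x) := by
    intro j
    have h := u_odd_pow_le hp j
    have hxp : x ^ (2 * j + 1) = y ^ j * x := by rw [hy, pow_succ, pow_mul]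
    rw [hxp]
    gcongr
  have s1 : Summable (fun j : ℕ => (u (p ^ (2 * j)) : ℝ) * x ^ (2 * j)) :=
    e1.summable.of_nonneg_of_le (fun j => by positivity) hev
  have s2 : Summable (fun j : ℕ => (u (p ^ (2 * j + 1)) : ℝ) * x ^ (2 * j + 1)) :=
    o1.summable.of_nonneg_of_le (fun j => by positivity) hod
  have hsplit := tsum_even_add_odd (f := fun e : ℕ => (u (p ^ e) : ℝ) * x ^ e) s1 s2
  rw [← hsplit]
  have t1 := (s1.tsum_le_tsum hev e1.summable).trans_eq e1.tsum_eq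
  have t2 := (s2.tsum_le_tsum hod o1.summable).trans_eq o1.tsum_eq
  refine (add_le_add t1 t2).trans (le_of_eq ?_)
  have hx1 : 1 - x ≠ 0 := by linarith
  have hyy : 1 - y ≠ 0 := by linarith
  have k1 : (1 - x) * (1 - x)⁻¹ = 1 := mul_inv_cancel₀ hx1
  have k2 : (1 - y) * (1 - y)⁻¹ = 1 := mul_inv_cancel₀ hyy
  have k3 : (1 - y)⁻¹ = (1 - y) * (1 - y)⁻¹ ^ 2 := by rw [pow_two, ← mul_assoc, k2, one_mul]
  have k4 : y / (1 - y) ^ 2 = y * (1 - y)⁻¹ ^ 2 := by rw [div_eq_mul_inv, inv_pow]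
  have k5 : (1 - x ^ 3) * ((1 - x)⁻¹ * ((1 - y)⁻¹) ^ 2) =
      (1 + x + y) * ((1 - x) * (1 - x)⁻¹) * (1 - y)⁻¹ ^ 2 := by rw [hy]; ring
  rw [k5, k1, k4]
  generalize (1 - y)⁻¹ = d at k3 ⊢
  have k6 : 2 * (y * d ^ 2) + d + (y * d ^ 2 + d) * x =
      2 * (y * d ^ 2) + (1 - y) * d ^ 2 + (y * d ^ 2 + (1 - y) * d ^ 2) * x := by rw [← k3]
  rw [k6]
  ring

/-- the mean value bound -/
lemma G_le {s : ℝ} (hs : 1 < s) :
    G s ≤ (1 - ((2 : ℝ) ^ (-s)) ^ 3) * (Z s * Z (2 * s) ^ 2) := by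
  have h1 := hasProd_G hs
  have h2 := hasProd_Z hs
  have h3 := hasProd_Z (s := 2 * s) (by linarith)
  have h4 := h2.mul (h3.mul h3)
  rw [HasProd, SummationFilter.unconditional] at h1 h4
  have h5 := h4.const_mul (1 - ((2 : ℝ) ^ (-s)) ^ 3)
  have he : Z s * (Z (2 * s) * Z (2 * s)) = Z s * Z (2 * s) ^ 2 := by ring
  rw [he] at h5
  refine le_of_tendsto_of_tendsto h1 h5 ?_
  filter_upwards [eventually_ge_atTop ({⟨2, Nat.prime_two⟩} : Finset Nat.Primes)] with S hS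
  have hmem : (⟨2, Nat.prime_two⟩ : Nat.Primes) ∈ S := hS (Finset.mem_singleton_self _)
  set b : Nat.Primes → ℝ := fun p => (1 - ((p : ℕ) : ℝ) ^ (-s))⁻¹ *
    ((1 - ((p : ℕ) : ℝ) ^ (-(2 * s)))⁻¹ * (1 - ((p : ℕ) : ℝ) ^ (-(2 * s)))⁻¹) with hb
  have hsq : ∀ p : Nat.Primes, ((p : ℕ) : ℝ) ^ (-(2 * s)) = (((p : ℕ) : ℝ) ^ (-s)) ^ 2 := by
    intro p
    rw [← Real.rpow_natCast, ← Real.rpow_mul (by positivity)]
    congr 1
    push_cast
    ring
  have hb' : ∀ p : Nat.Primes, ∑' e : ℕ, (u ((p : ℕ) ^ e) : ℝ) * (((p : ℕ) : ℝ) ^ (-s)) ^ e ≤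
      (1 - (((p : ℕ) : ℝ) ^ (-s)) ^ 3) * b p := by
    intro p
    have h := factor_G p.2 (x_pos s p) (x_le hs p)
    rw [hb]
    simp only
    rw [hsq p]
    refine h.trans (le_of_eq ?_)
    ring
  have hbpos : ∀ p : Nat.Primes, 0 ≤ b p := by
    intro p
    have hx0 := x_pos s p
    have hx := x_le hs p
    rw [hb]
    simp only
    rw [hsq p]
    have h6 : 0 < 1 - ((p : ℕ) : ℝ) ^ (-s) := by linarith
    have h7 : 0 < 1 - (((p : ℕ) : ℝ) ^ (-s)) ^ 2 := by nlinarith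
    positivity
  have hb2 : ∀ p : Nat.Primes, ∑' e : ℕ, (u ((p : ℕ) ^ e) : ℝ) * (((p : ℕ) : ℝ) ^ (-s)) ^ e ≤
      b p := by
    intro p
    have hx0 := x_pos s p
    refine (hb' p).trans ?_
    have : 0 ≤ (((p : ℕ) : ℝ) ^ (-s)) ^ 3 * b p := mul_nonneg (by positivity) (hbpos p)
    linarith
  have hnn : ∀ p : Nat.Primes, 0 ≤ ∑' e : ℕ, (u ((p : ℕ) ^ e) : ℝ) * (((p : ℕ) : ℝ) ^ (-s)) ^ e :=
    fun p => tsum_nonneg fun e => by positivity
  rw [← Finset.mul_prod_erase S _ hmem]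
  conv_rhs => rw [← Finset.mul_prod_erase S _ hmem]
  rw [← mul_assoc]
  refine mul_le_mul ?_ ?_ (Finset.prod_nonneg fun p _ => hnn p) ?_
  · exact hb' ⟨2, Nat.prime_two⟩
  · exact Finset.prod_le_prod (fun p _ => hnn p) (fun p _ => hb2 p)
  · exact le_trans (hnn _) (hb' ⟨2, Nat.prime_two⟩)

lemma Z_anti {s t : ℝ} (hs : 1 < s) (hst : s ≤ t) : Z t ≤ Z s := by
  unfold Z
  refine (summable_Z (by linarith)).tsum_le_tsum (fun n => ?_) (summable_Z hs)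
  rcases Nat.eq_zero_or_pos n with rfl | hn
  · have h1 : -t ≠ 0 := by linarith
    have h2 : -s ≠ 0 := by linarith
    simp [Real.zero_rpow h1, Real.zero_rpow h2]
  · exact Real.rpow_le_rpow_of_exponent_le (by exact_mod_cast hn) (by linarith)

lemma Z_two : Z 2 = Real.pi ^ 2 / 6 := by
  unfold Z
  rw [← hasSum_zeta_two.tsum_eq]
  congr 1
  funext n
  rw [Real.rpow_neg (by positivity), one_div]
  norm_num

/-- the mean of the odd parts of the divisor counts is less than `2.369` -/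
lemma G_limit : ∀ᶠ s : ℝ in 𝓝[>] 1, (s - 1) * G s ≤ 2.37 := by
  have h1 : Tendsto (fun s : ℝ => (1 - ((2 : ℝ) ^ (-s)) ^ 3) * (((s - 1) * Z s) * (Z 2) ^ 2))
      (𝓝[>] 1) (𝓝 ((1 - ((2 : ℝ) ^ (-1 : ℝ)) ^ 3) * (1 * (Z 2) ^ 2))) := by
    refine Tendsto.mul ?_ (tendsto_Z.mul_const _)
    have h : Tendsto (fun s : ℝ => 1 - ((2 : ℝ) ^ (-s)) ^ 3) (𝓝 1)
        (𝓝 (1 - ((2 : ℝ) ^ (-1 : ℝ)) ^ 3)) := by
      apply Continuous.tendsto
      have : Continuous fun s : ℝ => (2 : ℝ) ^ (-s) :=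
        (Real.continuous_const_rpow (by norm_num)).comp continuous_neg
      fun_prop
    exact h.mono_left nhdsWithin_le_nhds
  have h2 : (1 - ((2 : ℝ) ^ (-1 : ℝ)) ^ 3) * (1 * (Z 2) ^ 2) < 2.37 := by
    rw [Z_two, Real.rpow_neg_one]
    have h3 := Real.pi_lt_d4
    have h4 := Real.pi_pos
    have h5 : Real.pi ^ 2 < 9.8702 := by nlinarith
    have h6 : (Real.pi ^ 2 / 6) ^ 2 < (9.8702 / 6) ^ 2 := by
      apply pow_lt_pow_left₀ _ (by positivity) (by norm_num)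
      linarith
    norm_num at h6 ⊢
    linarith
  filter_upwards [h1.eventually_lt_const h2, self_mem_nhdsWithin] with s hs1 hs
  have hs' : (1 : ℝ) < s := hs
  refine le_trans ?_ hs1.le
  have h3 := G_le hs'
  have h4 : Z (2 * s) ≤ Z 2 := Z_anti (by norm_num) (by linarith)
  have h5 : 0 ≤ Z (2 * s) := tsum_nonneg fun n => by positivity
  have h6 : 0 ≤ Z s := tsum_nonneg fun n => by positivity
  have h7 : 0 ≤ 1 - ((2 : ℝ) ^ (-s)) ^ 3 := by
    have h8 : (2 : ℝ) ^ (-s) ≤ 1 := by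
      have := x_le hs' ⟨2, Nat.prime_two⟩
      push_cast at this
      linarith
    have h9 : ((2 : ℝ) ^ (-s)) ^ 3 ≤ 1 := pow_le_one₀ (by positivity) h8
    linarith
  calc (s - 1) * G s ≤ (s - 1) * ((1 - ((2 : ℝ) ^ (-s)) ^ 3) * (Z s * Z (2 * s) ^ 2)) := by
        gcongr
    _ ≤ (s - 1) * ((1 - ((2 : ℝ) ^ (-s)) ^ 3) * (Z s * Z 2 ^ 2)) := by
        gcongr
    _ = (1 - ((2 : ℝ) ^ (-s)) ^ 3) * (((s - 1) * Z s) * (Z 2) ^ 2) := by ring

end Pool.Agent.TH840.EB
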