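import Mathlib
import Pool.Agent.TH840.EB.Mean

set_option autoImplicit false

open Filter Topology

namespace Pool.Agent.TH840.EB

/-- the function `a ↦ 2^a` on the residues mod `r` -/
noncomputable def Phi (r : ℕ) (a : ZMod r) : ℂ := (2 : ℂ) ^ a.val

lemma fourier (r : ℕ) [NeZero r] (n : ℕ) :
    ((2 : ℂ) ^ (n % r)) =
      (r : ℂ)⁻¹ * ∑ j : ZMod r, (ZMod.stdAddChar j) ^ n * ZMod.dft (Phi r) j := by
  have h := ZMod.invDFT_apply (ZMod.dft (Phi r)) (n : ZMod r)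
  rw [LinearEquiv.symm_apply_apply] at h
  unfold Phi at h
  rw [ZMod.val_natCast] at h
  rw [h, smul_eq_mul]
  congr 1
  refine Finset.sum_congr rfl fun j _ => ?_
  rw [smul_eq_mul]
  congr 1
  rw [mul_comm, ← nsmul_eq_mul, AddChar.map_nsmul_eq_pow]

lemma dft_zero (r : ℕ) [NeZero r] : ZMod.dft (Phi r) 0 = (2 : ℂ) ^ r - 1 := by
  rw [ZMod.dft_apply_zero]
  have h1 : ∑ j : ZMod r, Phi r j = ∑ i : Fin r, (2 : ℂ) ^ (i : ℕ) := by
    obtain ⟨k, rfl⟩ := Nat.exists_eq_succ_of_ne_zero (NeZero.ne r)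
    rfl
  rw [h1, Fin.sum_univ_eq_sum_range (fun i => (2 : ℂ) ^ i) r, geom_sum_eq (by norm_num)]
  norm_num

/-- the weighted Dirichlet series -/
noncomputable def H (r : ℕ) (s : ℝ) : ℝ := ∑' m : ℕ, (u m : ℝ) * 2 ^ (v m % r) * (m : ℝ) ^ (-s)

lemma norm_char (r : ℕ) [NeZero r] (j : ZMod r) : ‖ZMod.stdAddChar j‖ = 1 := by
  exact Circle.norm_coe (ZMod.toCircle j)

lemma H_eq (r : ℕ) [NeZero r] {s : ℝ} (hs : 1 < s) :
    ((H r s : ℝ) : ℂ) = (r : ℂ)⁻¹ * ∑ j : ZMod r, (∑' m : ℕ, F (ZMod.stdAddChar j) s m) *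
      ZMod.dft (Phi r) j := by
  unfold H
  rw [Complex.ofReal_tsum]
  have h1 : ∀ m : ℕ, (((u m : ℝ) * 2 ^ (v m % r) * (m : ℝ) ^ (-s) : ℝ) : ℂ) =
      (r : ℂ)⁻¹ * ∑ j : ZMod r, F (ZMod.stdAddChar j) s m * ZMod.dft (Phi r) j := by
    intro m
    unfold F
    have h2 := fourier r (v m)
    push_cast
    rw [h2, Finset.mul_sum, Finset.mul_sum, Finset.mul_sum, Finset.sum_mul]
    refine Finset.sum_congr rfl fun j _ => ?_
    ring
  simp_rw [h1]
  rw [tsum_mul_left, Summable.tsum_finsetSum]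
  · congr 1
    refine Finset.sum_congr rfl fun j _ => ?_
    rw [tsum_mul_right]
  · intro j _
    exact (summable_F (norm_char r j) hs).of_norm.mul_right _

lemma F_one_eq (s : ℝ) : ∑' m : ℕ, F 1 s m = ((G s : ℝ) : ℂ) := by
  unfold G F
  rw [Complex.ofReal_tsum]
  congr 1
  funext m
  push_cast
  rw [one_pow, mul_one]

lemma H_limit (r : ℕ) (hr : 0 < r) {c : ℝ} (hc : (2 ^ r - 1) / r * 2.37 < c) :
    ∀ᶠ s : ℝ in 𝓝[>] 1, (s - 1) * H r s < c := by
  have : NeZero r := ⟨hr.ne'⟩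
  -- the non-trivial frequencies
  have h1 : Tendsto (fun s : ℝ => (r : ℂ)⁻¹ * ∑ j ∈ Finset.univ.erase (0 : ZMod r),
      (((s - 1 : ℝ) : ℂ) * ∑' m : ℕ, F (ZMod.stdAddChar j) s m) * ZMod.dft (Phi r) j)
      (𝓝[>] 1) (𝓝 ((r : ℂ)⁻¹ * ∑ j ∈ Finset.univ.erase (0 : ZMod r),
        0 * ZMod.dft (Phi r) j)) := by
    refine Tendsto.const_mul _ (tendsto_finsetSum _ fun j hj => ?_)
    refine Tendsto.mul_const _ (tendsto_L (norm_char r j) ?_)
    intro h
    apply Finset.ne_of_mem_erase hj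
    apply ZMod.injective_stdAddChar
    rw [h, AddChar.map_zero_eq_one]
  simp only [zero_mul, Finset.sum_const_zero, mul_zero] at h1
  have h2 := (Complex.continuous_re.tendsto _).comp h1
  rw [Complex.zero_re] at h2
  have h3 : (0 : ℝ) < c - (2 ^ r - 1) / r * 2.37 := by linarith
  filter_upwards [h2.eventually_lt_const h3, G_limit, self_mem_nhdsWithin] with s hs1 hs2 hs
  have hs' : (1 : ℝ) < s := hs
  have h4 := H_eq r hs'
  rw [← Finset.add_sum_erase Finset.univ _ (Finset.mem_univ (0 : ZMod r)), AddChar.map_zero_eq_one,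
    F_one_eq, dft_zero] at h4
  have h5 : (((s - 1) * H r s : ℝ) : ℂ) = (((2 ^ r - 1) / r * ((s - 1) * G s) : ℝ) : ℂ) +
      (r : ℂ)⁻¹ * ∑ j ∈ Finset.univ.erase (0 : ZMod r),
      (((s - 1 : ℝ) : ℂ) * ∑' m : ℕ, F (ZMod.stdAddChar j) s m) * ZMod.dft (Phi r) j := by
    rw [Complex.ofReal_mul, h4, mul_add, mul_add, Finset.mul_sum, Finset.mul_sum, Finset.mul_sum]
    push_cast
    congr 1
    · ring
    · refine Finset.sum_congr rfl fun j _ => ?_
      ring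
  have h6 := congrArg Complex.re h5
  rw [Complex.ofReal_re, Complex.add_re, Complex.ofReal_re] at h6
  simp only [Function.comp_apply] at hs1
  rw [h6]
  have h7 : (2 ^ r - 1) / (r : ℝ) * ((s - 1) * G s) ≤ (2 ^ r - 1) / r * 2.37 := by
    apply mul_le_mul_of_nonneg_left hs2
    apply div_nonneg _ (by positivity)
    have : (1 : ℝ) ≤ 2 ^ r := one_le_pow₀ (by norm_num)
    linarith
  linarith

end Pool.Agent.TH840.EB
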