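import Mathlib
import Pool.Agent.TH840.EB.Four

set_option autoImplicit false

open Filter Topology

namespace Pool.Agent.TH840.EB

/-- The number `A_k = ∑_{n ≥ 1} 1 / (k ^ n - 1)`. -/
noncomputable def lambertValue (k : ℕ) : ℝ := ∑' n : ℕ, 1 / ((k : ℝ) ^ (n + 1) - 1)

/-- the `n`-th digit after the point in base `b` -/
noncomputable def digit (b : ℕ) (x : ℝ) (n : ℕ) : ℤ := ⌊x * (b : ℝ) ^ n⌋ % (b : ℤ)

lemma tau_le (m : ℕ) : tau m ≤ m := Nat.card_divisors_le_self m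

lemma two_pow_v_le {m : ℕ} (hm : m ≠ 0) : 2 ^ v m ≤ m :=
  (Nat.ordProj_le 2 (tau_pos hm).ne').trans (tau_le m)

lemma summable_tau_pow {q : ℝ} (hq0 : 0 ≤ q) (hq : q < 1) :
    Summable (fun m : ℕ => (tau m : ℝ) * q ^ m) := by
  have hqn : ‖q‖ < 1 := by rwa [Real.norm_eq_abs, abs_of_nonneg hq0]
  refine (hasSum_coe_mul_geometric_of_norm_lt_one hqn).summable.of_nonneg_of_le
    (fun m => by positivity) fun m => ?_
  have : (tau m : ℝ) ≤ m := by exact_mod_cast tau_le m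
  gcongr

lemma lambert_eq (k : ℕ) (hk : 2 ≤ k) :
    lambertValue k = ∑' m : ℕ, (tau m : ℝ) * ((k : ℝ)⁻¹) ^ m := by
  have hk' : (2 : ℝ) ≤ k := by exact_mod_cast hk
  have hq0 : 0 < (k : ℝ)⁻¹ := by positivity
  have hq : (k : ℝ)⁻¹ < 1 := inv_lt_one_of_one_lt₀ (by linarith)
  have hqn : ‖(k : ℝ)⁻¹‖ < 1 := by rwa [Real.norm_eq_abs, abs_of_nonneg hq0.le]
  have h := tsum_pow_div_one_sub_eq_tsum_sigma hqn 0
  have h1 : ∑' m : ℕ, (tau m : ℝ) * ((k : ℝ)⁻¹) ^ m =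
      ∑' m : ℕ, (tau (m + 1) : ℝ) * ((k : ℝ)⁻¹) ^ (m + 1) := by
    rw [(summable_tau_pow hq0.le hq).tsum_eq_zero_add, tau_zero]
    simp
  rw [h1]
  have h2 : ∑' n : ℕ+, (ArithmeticFunction.sigma 0 (n : ℕ) : ℝ) * ((k : ℝ)⁻¹) ^ (n : ℕ) =
      ∑' m : ℕ, (tau (m + 1) : ℝ) * ((k : ℝ)⁻¹) ^ (m + 1) := by
    rw [tsum_pnat_eq_tsum_succ (f := fun n : ℕ =>
      (ArithmeticFunction.sigma 0 n : ℝ) * ((k : ℝ)⁻¹) ^ n)]
    congr 1
    funext m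
    rw [ArithmeticFunction.sigma_zero_apply]
    rfl
  rw [← h2, ← h]
  have h3 : ∑' n : ℕ+, ((n : ℕ) : ℝ) ^ 0 * (k : ℝ)⁻¹ ^ (n : ℕ) / (1 - (k : ℝ)⁻¹ ^ (n : ℕ)) =
      ∑' m : ℕ, (((m + 1 : ℕ)) : ℝ) ^ 0 * (k : ℝ)⁻¹ ^ (m + 1) / (1 - (k : ℝ)⁻¹ ^ (m + 1)) :=
    tsum_pnat_eq_tsum_succ (f := fun n : ℕ =>
      (n : ℝ) ^ 0 * (k : ℝ)⁻¹ ^ n / (1 - (k : ℝ)⁻¹ ^ n))
  rw [h3]
  unfold lambertValue
  congr 1
  funext m
  have h4 : (1 : ℝ) < (k : ℝ) ^ (m + 1) := one_lt_pow₀ (by linarith) (by omega)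
  have h5 : (k : ℝ) ^ (m + 1) ≠ 0 := by positivity
  have h6 : (k : ℝ) ^ (m + 1) - 1 ≠ 0 := by linarith
  rw [pow_zero, one_mul, inv_pow]
  have h7 : 1 - ((k : ℝ) ^ (m + 1))⁻¹ = ((k : ℝ) ^ (m + 1) - 1) / (k : ℝ) ^ (m + 1) := by
    field_simp
  rw [h7, inv_eq_one_div, div_div_div_cancel_right₀ h5]

/-- the non-integral part of the tail -/
noncomputable def R (r n : ℕ) : ℝ :=
  ∑' j : ℕ, if v (n + j) < r * (j + 1) then (tau (n + j) : ℝ) * (((2 : ℝ) ^ r)⁻¹) ^ j else 0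

lemma q_pos (r : ℕ) : 0 < ((2 : ℝ) ^ r)⁻¹ := by positivity

lemma q_lt {r : ℕ} (hr : 0 < r) : ((2 : ℝ) ^ r)⁻¹ < 1 :=
  inv_lt_one_of_one_lt₀ (one_lt_pow₀ (by norm_num) hr.ne')

lemma summable_shift {r : ℕ} (hr : 0 < r) (n : ℕ) :
    Summable (fun j : ℕ => (tau (n + j) : ℝ) * (((2 : ℝ) ^ r)⁻¹) ^ j) := by
  have h := (summable_nat_add_iff n).2 (summable_tau_pow (q_pos r).le (q_lt hr))
  have h2 := h.mul_left ((((2 : ℝ) ^ r)) ^ n)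
  refine h2.congr fun j => ?_
  rw [add_comm j n, pow_add]
  have h3 : ((2 : ℝ) ^ r) ^ n * ((2 : ℝ) ^ r)⁻¹ ^ n = 1 := by
    rw [← mul_pow, mul_inv_cancel₀ (by positivity), one_pow]
  calc ((2 : ℝ) ^ r) ^ n * ((tau (n + j) : ℝ) * (((2 : ℝ) ^ r)⁻¹ ^ n * ((2 : ℝ) ^ r)⁻¹ ^ j))
      = (((2 : ℝ) ^ r) ^ n * ((2 : ℝ) ^ r)⁻¹ ^ n) * ((tau (n + j) : ℝ) * ((2 : ℝ) ^ r)⁻¹ ^ j) := by
        ring
    _ = _ := by rw [h3, one_mul]

lemma summable_R {r : ℕ} (hr : 0 < r) (n : ℕ) :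
    Summable (fun j : ℕ => if v (n + j) < r * (j + 1) then
      (tau (n + j) : ℝ) * (((2 : ℝ) ^ r)⁻¹) ^ j else 0) := by
  refine (summable_shift hr n).of_nonneg_of_le (fun j => ?_) fun j => ?_
  · split_ifs <;> positivity
  · split_ifs
    · exact le_rfl
    · positivity

/-- the integral part of the tail -/
lemma integral_part {r : ℕ} (hr : 0 < r) (n : ℕ) : ∃ I : ℤ,
    ∑' j : ℕ, (if v (n + j) < r * (j + 1) then 0 else
      (tau (n + j) : ℝ) * (((2 : ℝ) ^ r)⁻¹) ^ j) = (2 : ℝ) ^ r * I := by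
  have h0 : ∀ j ∉ Finset.range (n + 1), (if v (n + j) < r * (j + 1) then (0 : ℝ) else
      (tau (n + j) : ℝ) * (((2 : ℝ) ^ r)⁻¹) ^ j) = 0 := by
    intro j hj
    rw [Finset.mem_range, not_lt] at hj
    rw [if_pos]
    by_contra hcon
    rw [not_lt] at hcon
    have h1 := two_pow_v_le (m := n + j) (by omega)
    have h2 : j + 1 ≤ v (n + j) := le_trans (Nat.le_mul_of_pos_left _ hr) hcon
    have h3 : 2 ^ (j + 1) ≤ 2 ^ v (n + j) := Nat.pow_le_pow_right (by norm_num) h2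
    have h4 : j < 2 ^ j := Nat.lt_two_pow_self
    rw [pow_succ] at h3
    omega
  rw [tsum_eq_sum h0]
  refine ⟨∑ j ∈ Finset.range (n + 1), (if v (n + j) < r * (j + 1) then (0 : ℤ) else
    ((u (n + j) * 2 ^ (v (n + j) - r * (j + 1)) : ℕ) : ℤ)), ?_⟩
  push_cast
  rw [Finset.mul_sum]
  refine Finset.sum_congr rfl fun j _ => ?_
  split_ifs with h
  · simp
  · rw [not_lt] at h
    have h1 : (tau (n + j) : ℝ) = 2 ^ v (n + j) * u (n + j) := by exact_mod_cast tau_eq (n + j)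
    obtain ⟨t, ht⟩ := Nat.exists_eq_add_of_le h
    rw [h1, ht, Nat.add_sub_cancel_left, pow_add, mul_add, mul_one, pow_add, pow_mul, inv_pow]
    have h2 : ((2 : ℝ) ^ r) ^ j ≠ 0 := by positivity
    field_simp

/-- the digit is at most the tail -/
lemma digit_le {r : ℕ} (hr : 0 < r) {n : ℕ} (_hn : 1 ≤ n) :
    (digit (2 ^ r) (lambertValue (2 ^ r)) n : ℝ) ≤ R r n := by
  have hk : 2 ≤ 2 ^ r := by
    calc 2 = 2 ^ 1 := rfl
      _ ≤ 2 ^ r := Nat.pow_le_pow_right (by norm_num) hr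
  have hkc : (((2 ^ r : ℕ)) : ℝ) = (2 : ℝ) ^ r := by push_cast; rfl
  have hA : lambertValue (2 ^ r) = ∑' m : ℕ, (tau m : ℝ) * (((2 : ℝ) ^ r)⁻¹) ^ m := by
    rw [lambert_eq _ hk, hkc]
  -- split the series
  obtain ⟨I, hI⟩ := integral_part hr n
  have h1 : ∑' j : ℕ, (tau (n + j) : ℝ) * (((2 : ℝ) ^ r)⁻¹) ^ j = (2 : ℝ) ^ r * I + R r n := by
    rw [← hI]
    unfold R
    have hs1 : Summable (fun j : ℕ => (if v (n + j) < r * (j + 1) then (0 : ℝ) else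
        (tau (n + j) : ℝ) * (((2 : ℝ) ^ r)⁻¹) ^ j)) := by
      refine (summable_shift hr n).of_nonneg_of_le (fun j => ?_) fun j => ?_
      · split_ifs <;> positivity
      · split_ifs
        · positivity
        · exact le_rfl
    rw [← hs1.tsum_add (summable_R hr n)]
    congr 1
    funext j
    split_ifs <;> simp
  have h2 : lambertValue (2 ^ r) * ((2 : ℝ) ^ r) ^ n =
      (2 : ℝ) ^ r * ((∑ m ∈ Finset.range n, tau m * (2 ^ r) ^ (n - 1 - m) : ℕ) : ℝ) +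
        ∑' j : ℕ, (tau (n + j) : ℝ) * (((2 : ℝ) ^ r)⁻¹) ^ j := by
    rw [hA, ← (summable_tau_pow (q_pos r).le (q_lt hr)).sum_add_tsum_nat_add n, add_mul]
    congr 1
    · push_cast
      rw [Finset.sum_mul, Finset.mul_sum]
      refine Finset.sum_congr rfl fun m hm => ?_
      rw [Finset.mem_range] at hm
      obtain ⟨t, ht⟩ : ∃ t, n = m + 1 + t := ⟨n - (m + 1), by omega⟩
      have ht2 : n - 1 - m = t := by omega
      rw [ht2, ht, inv_pow, pow_add, pow_add, pow_one]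
      have h3 : ((2 : ℝ) ^ r) ^ m ≠ 0 := by positivity
      field_simp
    · rw [← tsum_mul_right]
      congr 1
      funext j
      rw [add_comm j n, pow_add]
      have h3 : ((2 : ℝ) ^ r)⁻¹ ^ n * ((2 : ℝ) ^ r) ^ n = 1 := by
        rw [← mul_pow, inv_mul_cancel₀ (by positivity), one_pow]
      calc (tau (n + j) : ℝ) * (((2 : ℝ) ^ r)⁻¹ ^ n * ((2 : ℝ) ^ r)⁻¹ ^ j) * ((2 : ℝ) ^ r) ^ n
          = (((2 : ℝ) ^ r)⁻¹ ^ n * ((2 : ℝ) ^ r) ^ n) *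
            ((tau (n + j) : ℝ) * ((2 : ℝ) ^ r)⁻¹ ^ j) := by ring
        _ = _ := by rw [h3, one_mul]
  set J : ℕ := ∑ m ∈ Finset.range n, tau m * (2 ^ r) ^ (n - 1 - m) with hJ
  have h4 : lambertValue (2 ^ r) * (((2 ^ r : ℕ)) : ℝ) ^ n =
      (((2 ^ r * (J + I) : ℤ)) : ℝ) + R r n := by
    rw [hkc, h2, h1]
    push_cast
    ring
  have hR : 0 ≤ R r n := tsum_nonneg fun j => by split_ifs <;> positivity
  unfold digit
  rw [h4, Int.floor_intCast_add]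
  have h5 : (2 ^ r * ((J : ℤ) + I) + ⌊R r n⌋) % ((2 ^ r : ℕ) : ℤ) =
      ⌊R r n⌋ % ((2 ^ r : ℕ) : ℤ) := by
    push_cast
    rw [add_comm, Int.add_mul_emod_self_left]
  rw [h5]
  have h6 : 0 ≤ ⌊R r n⌋ := Int.floor_nonneg.2 hR
  have h7 : ⌊R r n⌋ % ((2 ^ r : ℕ) : ℤ) ≤ ⌊R r n⌋ := by
    have h8 := Int.emod_add_mul_ediv ⌊R r n⌋ ((2 ^ r : ℕ) : ℤ)
    have h9 : 0 ≤ ⌊R r n⌋ / ((2 ^ r : ℕ) : ℤ) := Int.ediv_nonneg h6 (by positivity)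
    have h10 : 0 ≤ ((2 ^ r : ℕ) : ℤ) * (⌊R r n⌋ / ((2 ^ r : ℕ) : ℤ)) :=
      mul_nonneg (by positivity) h9
    linarith
  calc ((⌊R r n⌋ % ((2 ^ r : ℕ) : ℤ) : ℤ) : ℝ) ≤ (⌊R r n⌋ : ℝ) := by exact_mod_cast h7
    _ ≤ R r n := Int.floor_le _

end Pool.Agent.TH840.EB
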