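import Mathlib
import Pool.Agent.TH840.EB.Dig

set_option autoImplicit false

open Filter Topology

namespace Pool.Agent.TH840.EB

lemma summable_H (r : ℕ) (hr : 0 < r) {s : ℝ} (hs : 1 < s) :
    Summable (fun m : ℕ => (u m : ℝ) * 2 ^ (v m % r) * (m : ℝ) ^ (-s)) := by
  refine ((summable_G hs).mul_left ((2 : ℝ) ^ r)).of_nonneg_of_le (fun m => by positivity)
    fun m => ?_
  have h : (2 : ℝ) ^ (v m % r) ≤ 2 ^ r :=
    pow_le_pow_right₀ (by norm_num) (Nat.mod_lt _ hr).le
  calc (u m : ℝ) * 2 ^ (v m % r) * (m : ℝ) ^ (-s) ≤ (u m : ℝ) * 2 ^ r * (m : ℝ) ^ (-s) := by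
        gcongr
    _ = _ := by ring

lemma H_nonneg (r : ℕ) (s : ℝ) : 0 ≤ H r s := tsum_nonneg fun m => by positivity

/-- the sum over the exponents for a fixed `m` -/
lemma inner_sum {r : ℕ} (hr : 0 < r) (m : ℕ) :
    HasSum (fun j : ℕ => if v m < r * (j + 1) then (tau m : ℝ) * (((2 : ℝ) ^ r)⁻¹) ^ j else 0)
      ((1 - ((2 : ℝ) ^ r)⁻¹)⁻¹ * (u m * 2 ^ (v m % r))) := by
  set Q : ℝ := ((2 : ℝ) ^ r)⁻¹ with hQ
  have hQ0 : 0 < Q := q_pos r
  have hQ1 : Q < 1 := q_lt hr
  have h1 := (hasSum_geometric_of_lt_one hQ0.le hQ1).mul_left ((u m : ℝ) * 2 ^ (v m % r))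
  have h2 : HasSum (fun j : ℕ => if v m < r * (j + v m / r + 1) then
      (tau m : ℝ) * Q ^ (j + v m / r) else 0)
      ((1 - Q)⁻¹ * (u m * 2 ^ (v m % r))) := by
    rw [mul_comm (1 - Q)⁻¹]
    have he : (fun j : ℕ => if v m < r * (j + v m / r + 1) then
        (tau m : ℝ) * Q ^ (j + v m / r) else 0) =
        fun j : ℕ => (u m : ℝ) * 2 ^ (v m % r) * Q ^ j := by
      funext j
      have hlt : v m < r * (j + v m / r + 1) := by
        have h3 := Nat.div_add_mod (v m) r
        have h4 := Nat.mod_lt (v m) hr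
        have h5 : r * (j + v m / r + 1) = r * j + r * (v m / r) + r := by ring
        omega
      rw [if_pos hlt]
      have h6 : (tau m : ℝ) = 2 ^ v m * u m := by exact_mod_cast tau_eq m
      have h7 : (2 : ℝ) ^ v m = (2 ^ r) ^ (v m / r) * 2 ^ (v m % r) := by
        rw [← pow_mul, ← pow_add, Nat.div_add_mod]
      have h8 : ((2 : ℝ) ^ r) ^ (v m / r) * Q ^ (v m / r) = 1 := by
        rw [← mul_pow, hQ, mul_inv_cancel₀ (by positivity), one_pow]
      rw [h6, h7, pow_add]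
      calc (2 ^ r) ^ (v m / r) * 2 ^ (v m % r) * (u m : ℝ) * (Q ^ j * Q ^ (v m / r))
          = ((2 ^ r) ^ (v m / r) * Q ^ (v m / r)) * ((u m : ℝ) * 2 ^ (v m % r) * Q ^ j) := by ring
        _ = _ := by rw [h8, one_mul]
    rw [he]
    exact h1
  have h3 := (hasSum_nat_add_iff (f := fun j : ℕ => if v m < r * (j + 1) then
    (tau m : ℝ) * Q ^ j else 0) (v m / r)).1 h2
  rw [Finset.sum_eq_zero, add_zero] at h3
  · exact h3
  · intro j hj
    rw [Finset.mem_range] at hj
    rw [if_neg]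
    rw [not_lt]
    calc r * (j + 1) ≤ r * (v m / r) := Nat.mul_le_mul_left _ hj
      _ ≤ v m := Nat.mul_div_le _ _

/-- the constant -/
noncomputable def Cst (r D : ℕ) : ℝ :=
  ∑' j : ℕ, (j : ℝ) * D * (j * (D + 1) * (((2 : ℝ) ^ r)⁻¹) ^ j)

lemma summable_Cst {r : ℕ} (hr : 0 < r) (D : ℕ) :
    Summable (fun j : ℕ => (j : ℝ) * D * (j * (D + 1) * (((2 : ℝ) ^ r)⁻¹) ^ j)) := by
  have h := summable_pow_mul_geometric_of_norm_lt_one 2 (r := ((2 : ℝ) ^ r)⁻¹) (by
    rw [Real.norm_eq_abs, abs_of_nonneg (q_pos r).le]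
    exact q_lt hr)
  refine (h.mul_left ((D : ℝ) * (D + 1))).congr fun j => ?_
  ring

lemma weight_le {s : ℝ} (hs : 1 < s) (hs2 : s ≤ 2) {D n j : ℕ} (hD : 1 ≤ D) (hn : 1 ≤ n)
    (h : j * D ≤ n) :
    (n : ℝ) ^ (-s) ≤ (1 + 1 / (D : ℝ)) ^ 2 * ((n + j : ℕ) : ℝ) ^ (-s) := by
  have hn0 : (0 : ℝ) < n := by exact_mod_cast hn
  have hD0 : (0 : ℝ) < D := by exact_mod_cast hD
  have h1 : ((n + j : ℕ) : ℝ) ≤ n * (1 + 1 / (D : ℝ)) := by
    push_cast
    have h2 : (j : ℝ) * D ≤ n := by exact_mod_cast h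
    have h3 : (j : ℝ) ≤ n * (1 / D) := by
      rw [mul_one_div, le_div_iff₀ hD0]
      exact h2
    linarith
  have h4 : (0 : ℝ) < ((n + j : ℕ) : ℝ) := by
    push_cast
    positivity
  have h5 : ((n + j : ℕ) : ℝ) ^ s ≤ (n : ℝ) ^ s * (1 + 1 / (D : ℝ)) ^ 2 := by
    calc ((n + j : ℕ) : ℝ) ^ s ≤ (n * (1 + 1 / (D : ℝ))) ^ s :=
          Real.rpow_le_rpow h4.le h1 (by linarith)
      _ = (n : ℝ) ^ s * (1 + 1 / (D : ℝ)) ^ s := Real.mul_rpow hn0.le (by positivity)
      _ ≤ (n : ℝ) ^ s * (1 + 1 / (D : ℝ)) ^ 2 := by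
          gcongr
          rw [← Real.rpow_natCast]
          apply Real.rpow_le_rpow_of_exponent_le
          · have : 0 < 1 / (D : ℝ) := by positivity
            linarith
          · exact_mod_cast hs2
  rw [Real.rpow_neg hn0.le, Real.rpow_neg h4.le, ← div_eq_mul_inv, le_div_iff₀ (by positivity),
    inv_mul_le_iff₀ (by positivity)]
  exact h5

/-- the averaged bound -/
lemma avg {r : ℕ} (hr : 0 < r) {s : ℝ} (hs : 1 < s) (hs2 : s ≤ 2) {D : ℕ} (hD : 1 ≤ D) :
    ∑' n : ℕ, ENNReal.ofReal (R r n * (n : ℝ) ^ (-s)) ≤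
      ENNReal.ofReal ((1 + 1 / (D : ℝ)) ^ 2 * ((1 - ((2 : ℝ) ^ r)⁻¹)⁻¹ * H r s) + Cst r D) := by
  set Q : ℝ := ((2 : ℝ) ^ r)⁻¹ with hQ
  have hQ0 : 0 < Q := q_pos r
  have hQ1 : Q < 1 := q_lt hr
  have hc0 : 0 ≤ (1 + 1 / (D : ℝ)) ^ 2 := by positivity
  set g : ℕ → ℕ → ℝ := fun j m => (m : ℝ) ^ (-s) *
    (if v m < r * (j + 1) then (tau m : ℝ) * Q ^ j else 0) with hg
  have hg0 : ∀ j m, 0 ≤ g j m := by
    intro j m
    rw [hg]
    simp only
    split_ifs <;> positivity
  set e : ℕ → ℕ → ℝ := fun j n => if n < j * D then (j : ℝ) * (D + 1) * Q ^ j else 0 with he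
  have he0 : ∀ j n, 0 ≤ e j n := by
    intro j n
    rw [he]
    simp only
    split_ifs <;> positivity
  -- pointwise bound
  have hpt : ∀ n j : ℕ, ((if v (n + j) < r * (j + 1) then (tau (n + j) : ℝ) * Q ^ j else 0) *
      (n : ℝ) ^ (-s)) ≤ (1 + 1 / (D : ℝ)) ^ 2 * g j (n + j) + e j n := by
    intro n j
    rcases Nat.eq_zero_or_pos n with rfl | hn
    · have h1 : -s ≠ 0 := by linarith
      rw [Nat.cast_zero, Real.zero_rpow h1, mul_zero]
      exact add_nonneg (mul_nonneg hc0 (hg0 _ _)) (he0 _ _)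
    · by_cases hjn : n < j * D
      · have h2 : (n : ℝ) ^ (-s) ≤ 1 := by
          rw [Real.rpow_neg (by positivity)]
          apply inv_le_one_of_one_le₀
          exact Real.one_le_rpow (by exact_mod_cast hn) (by linarith)
        have h3 : (if v (n + j) < r * (j + 1) then (tau (n + j) : ℝ) * Q ^ j else 0) ≤ e j n := by
          rw [he]
          simp only
          rw [if_pos hjn]
          have h4 : (tau (n + j) : ℝ) ≤ (j : ℝ) * (D + 1) := by
            have h5 := tau_le (n + j)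
            have h6 : n + j ≤ j * (D + 1) := by
              rw [mul_add, mul_one]
              omega
            exact_mod_cast h5.trans h6
          split_ifs
          · gcongr
          · positivity
        calc _ ≤ e j n * 1 := by
              apply mul_le_mul h3 h2 (by positivity) (he0 _ _)
          _ ≤ _ := by
              rw [mul_one]
              have := mul_nonneg hc0 (hg0 j (n + j))
              linarith
      · rw [not_lt] at hjn
        have h2 := weight_le hs hs2 hD hn hjn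
        have h3 : (0 : ℝ) ≤ (if v (n + j) < r * (j + 1) then (tau (n + j) : ℝ) * Q ^ j else 0) := by
          split_ifs <;> positivity
        calc _ ≤ (if v (n + j) < r * (j + 1) then (tau (n + j) : ℝ) * Q ^ j else 0) *
              ((1 + 1 / (D : ℝ)) ^ 2 * ((n + j : ℕ) : ℝ) ^ (-s)) :=
              mul_le_mul_of_nonneg_left h2 h3
          _ = (1 + 1 / (D : ℝ)) ^ 2 * g j (n + j) := by
              rw [hg]
              simp only
              ring
          _ ≤ _ := by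
              have := he0 j n
              linarith
  -- expand R
  have hR : ∀ n : ℕ, ENNReal.ofReal (R r n * (n : ℝ) ^ (-s)) = ∑' j : ℕ, ENNReal.ofReal
      ((if v (n + j) < r * (j + 1) then (tau (n + j) : ℝ) * Q ^ j else 0) * (n : ℝ) ^ (-s)) := by
    intro n
    unfold R
    rw [← tsum_mul_right, ENNReal.ofReal_tsum_of_nonneg]
    · intro j
      split_ifs <;> positivity
    · exact (summable_R hr n).mul_right _
  have hstep1 : ∑' n : ℕ, ENNReal.ofReal (R r n * (n : ℝ) ^ (-s)) ≤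
      ∑' n : ℕ, ∑' j : ℕ, (ENNReal.ofReal ((1 + 1 / (D : ℝ)) ^ 2) *
        ENNReal.ofReal (g j (n + j)) + ENNReal.ofReal (e j n)) := by
    refine ENNReal.tsum_le_tsum fun n => ?_
    rw [hR n]
    refine ENNReal.tsum_le_tsum fun j => ?_
    rw [← ENNReal.ofReal_mul hc0, ← ENNReal.ofReal_add (mul_nonneg hc0 (hg0 _ _)) (he0 _ _)]
    exact ENNReal.ofReal_le_ofReal (hpt n j)
  refine hstep1.trans ?_
  simp_rw [ENNReal.tsum_add, ENNReal.tsum_mul_left]
  have hH0 : 0 ≤ (1 - Q)⁻¹ * H r s := mul_nonneg (inv_nonneg.2 (by linarith)) (H_nonneg r s)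
  have hC0 : 0 ≤ Cst r D := tsum_nonneg fun j => by positivity
  rw [ENNReal.ofReal_add (mul_nonneg hc0 hH0) hC0, ENNReal.ofReal_mul hc0]
  refine add_le_add ?_ ?_
  · gcongr
    rw [ENNReal.tsum_comm]
    have h1 : ∀ j : ℕ, ∑' n : ℕ, ENNReal.ofReal (g j (n + j)) ≤ ∑' m : ℕ, ENNReal.ofReal (g j m) :=
      fun j => ENNReal.tsum_comp_le_tsum_of_injective (f := fun n : ℕ => n + j)
        (fun a b h => by simpa using h) (fun m => ENNReal.ofReal (g j m))
    refine (ENNReal.tsum_le_tsum h1).trans ?_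
    rw [ENNReal.tsum_comm]
    have h2 : ∀ m : ℕ, ∑' j : ℕ, ENNReal.ofReal (g j m) =
        ENNReal.ofReal ((1 - Q)⁻¹ * (u m * 2 ^ (v m % r) * (m : ℝ) ^ (-s))) := by
      intro m
      have h3 := (inner_sum hr m).mul_left ((m : ℝ) ^ (-s))
      rw [← ENNReal.ofReal_tsum_of_nonneg (fun j => hg0 j m) h3.summable, h3.tsum_eq]
      congr 1
      ring
    simp_rw [h2]
    rw [← ENNReal.ofReal_tsum_of_nonneg _ ((summable_H r hr hs).mul_left _), tsum_mul_left]
    · rfl
    · intro m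
      exact mul_nonneg (inv_nonneg.2 (by linarith)) (by positivity)
  · rw [ENNReal.tsum_comm]
    unfold Cst
    rw [ENNReal.ofReal_tsum_of_nonneg (fun j => by positivity) (summable_Cst hr D)]
    refine ENNReal.tsum_le_tsum fun j => ?_
    rw [tsum_eq_sum (s := Finset.range (j * D))]
    · rw [← ENNReal.ofReal_sum_of_nonneg (fun n _ => he0 j n)]
      apply ENNReal.ofReal_le_ofReal
      rw [he]
      simp only
      rw [Finset.sum_congr rfl (fun n hn => if_pos (Finset.mem_range.1 hn)), Finset.sum_const,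
        Finset.card_range, nsmul_eq_mul]
      push_cast
      exact le_rfl
    · intro n hn
      rw [Finset.mem_range] at hn
      rw [he]
      simp only
      rw [if_neg hn, ENNReal.ofReal_zero]

end Pool.Agent.TH840.EB
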