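import Mathlib
import Pool.Agent.TH840.EB.Avg

set_option autoImplicit false

open Filter Topology

namespace Pool.Agent.TH840.EB

lemma digit_nonneg {b : ℕ} (hb : 0 < b) (x : ℝ) (n : ℕ) : 0 ≤ digit b x n :=
  Int.emod_nonneg _ (by exact_mod_cast hb.ne')

lemma digit_lt {b : ℕ} (hb : 0 < b) (x : ℝ) (n : ℕ) : digit b x n < b :=
  Int.emod_lt_of_pos _ (by exact_mod_cast hb)

/-- the Dirichlet series of the digits -/
noncomputable def S (r : ℕ) (s : ℝ) : ℝ :=
  ∑' n : ℕ, (digit (2 ^ r) (lambertValue (2 ^ r)) n : ℝ) * (n : ℝ) ^ (-s)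

lemma summable_S (r : ℕ) {s : ℝ} (hs : 1 < s) : Summable (fun n : ℕ =>
    (digit (2 ^ r) (lambertValue (2 ^ r)) n : ℝ) * (n : ℝ) ^ (-s)) := by
  have hb : 0 < 2 ^ r := by positivity
  refine ((summable_Z hs).mul_left ((2 ^ r : ℕ) : ℝ)).of_nonneg_of_le (fun n => ?_) fun n => ?_
  · have h : (0 : ℝ) ≤ (digit (2 ^ r) (lambertValue (2 ^ r)) n : ℝ) := by
      exact_mod_cast digit_nonneg hb _ _
    positivity
  · have h : (digit (2 ^ r) (lambertValue (2 ^ r)) n : ℝ) ≤ ((2 ^ r : ℕ) : ℝ) := by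
      exact_mod_cast (digit_lt hb _ _).le
    gcongr

lemma S_le {r : ℕ} (hr : 0 < r) {s : ℝ} (hs : 1 < s) (hs2 : s ≤ 2) {D : ℕ} (hD : 1 ≤ D) :
    S r s ≤ (1 + 1 / (D : ℝ)) ^ 2 * ((1 - ((2 : ℝ) ^ r)⁻¹)⁻¹ * H r s) + Cst r D := by
  have hb : 0 < 2 ^ r := by positivity
  have h1 := avg hr hs hs2 hD
  have hR : 0 ≤ (1 + 1 / (D : ℝ)) ^ 2 * ((1 - ((2 : ℝ) ^ r)⁻¹)⁻¹ * H r s) + Cst r D := by
    have hC0 : 0 ≤ Cst r D := tsum_nonneg fun j => by positivity
    have hH := H_nonneg r s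
    have hQ := q_lt hr
    have : 0 ≤ (1 - ((2 : ℝ) ^ r)⁻¹)⁻¹ := inv_nonneg.2 (by linarith)
    positivity
  have hd : ∀ n : ℕ, (0 : ℝ) ≤ (digit (2 ^ r) (lambertValue (2 ^ r)) n : ℝ) * (n : ℝ) ^ (-s) := by
    intro n
    have h : (0 : ℝ) ≤ (digit (2 ^ r) (lambertValue (2 ^ r)) n : ℝ) := by
      exact_mod_cast digit_nonneg hb _ _
    positivity
  rw [← ENNReal.ofReal_le_ofReal_iff hR]
  refine le_trans ?_ h1
  unfold S
  rw [ENNReal.ofReal_tsum_of_nonneg hd (summable_S r hs)]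
  refine ENNReal.tsum_le_tsum fun n => ENNReal.ofReal_le_ofReal ?_
  rcases Nat.eq_zero_or_pos n with rfl | hn
  · have h2 : -s ≠ 0 := by linarith
    rw [Nat.cast_zero, Real.zero_rpow h2, mul_zero, mul_zero]
  · have := digit_le hr hn
    gcongr

/-- The mean of the digits of `A_(2^r)` does not tend to `(2^r - 1) / 2`. -/
theorem mean_digits {r : ℕ} (hr : 5 ≤ r) :
    ¬ Tendsto (fun N : ℕ => (∑ n ∈ Finset.Icc 1 N,
      (digit (2 ^ r) (lambertValue (2 ^ r)) n : ℝ)) / (N : ℝ)) atTop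
      (𝓝 (((2 : ℝ) ^ r - 1) / 2)) := by
  intro hlim
  have hb : 0 < 2 ^ r := by positivity
  have hr0 : 0 < r := by omega
  set b : ℝ := (2 : ℝ) ^ r with hbdef
  have hb32 : (32 : ℝ) ≤ b := by
    calc (32 : ℝ) = 2 ^ 5 := by norm_num
      _ ≤ 2 ^ r := pow_le_pow_right₀ (by norm_num) hr
  have hrR : (5 : ℝ) ≤ r := by exact_mod_cast hr
  have hL := LSeries_tendsto_sub_mul_nhds_one_of_tendsto_sum_div_and_nonneg
    (fun n => (digit (2 ^ r) (lambertValue (2 ^ r)) n : ℝ)) hlim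
    (fun n => by exact_mod_cast digit_nonneg hb _ _)
  have hS : ∀ s : ℝ, 1 < s → LSeries (fun n =>
      (((digit (2 ^ r) (lambertValue (2 ^ r)) n : ℝ)) : ℂ)) (s : ℂ) = ((S r s : ℝ) : ℂ) := by
    intro s hs
    unfold LSeries S
    rw [Complex.ofReal_tsum]
    congr 1
    funext n
    rw [LSeries.term_def]
    split_ifs with hn
    · have h1 : -s ≠ 0 := by linarith
      rw [hn, Nat.cast_zero, Real.zero_rpow h1, mul_zero, Complex.ofReal_zero]
    · rw [Real.rpow_neg (by positivity)]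
      push_cast
      rw [Complex.ofReal_cpow (by positivity), Complex.ofReal_natCast, div_eq_mul_inv]
  have hT : Tendsto (fun s : ℝ => (s - 1) * S r s) (𝓝[>] 1) (𝓝 ((b - 1) / 2)) := by
    have h1 := (Complex.continuous_re.tendsto _).comp hL
    rw [Complex.ofReal_re] at h1
    refine h1.congr' ?_
    filter_upwards [self_mem_nhdsWithin] with s hs
    have hs' : (1 : ℝ) < s := hs
    simp only [Function.comp_apply]
    rw [hS s hs', ← Complex.ofReal_one, ← Complex.ofReal_sub, ← Complex.ofReal_mul,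
      Complex.ofReal_re]
  -- the constants
  have hb1 : 0 < b - 1 := by linarith
  have hb0 : 0 < b := by linarith
  have hX : (b - 1) / r * 2.37 < (b - 1) ^ 2 / (2 * 1.0201 * b) := by
    rw [div_mul_eq_mul_div, div_lt_div_iff₀ (by linarith) (by positivity)]
    have h1 : 2.37 * (2 * 1.0201 * b) < (b - 1) * r := by nlinarith
    nlinarith
  set c : ℝ := ((b - 1) / r * 2.37 + (b - 1) ^ 2 / (2 * 1.0201 * b)) / 2 with hc
  have hc1 : (b - 1) / r * 2.37 < c := by rw [hc]; linarith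
  have hc2 : c < (b - 1) ^ 2 / (2 * 1.0201 * b) := by rw [hc]; linarith
  have hH := H_limit r hr0 hc1
  have hcpos : 0 < c := lt_trans (by positivity) hc1
  have hQ : (1 - b⁻¹)⁻¹ = b / (b - 1) := by
    rw [eq_div_iff hb1.ne', inv_mul_eq_div, div_eq_iff (by
      have : b⁻¹ ≤ 32⁻¹ := inv_anti₀ (by norm_num) hb32
      have : (32 : ℝ)⁻¹ < 1 := by norm_num
      linarith)]
    field_simp
  have hbound : ∀ᶠ s : ℝ in 𝓝[>] 1, (s - 1) * S r s ≤
      1.0201 * (b / (b - 1) * c) + (s - 1) * Cst r 100 := by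
    have hs2 : ∀ᶠ s : ℝ in 𝓝[>] 1, s ≤ 2 := by
      have : ∀ᶠ s : ℝ in 𝓝 1, s < 2 := eventually_lt_nhds (by norm_num)
      exact (this.filter_mono nhdsWithin_le_nhds).mono fun s hs => hs.le
    filter_upwards [hH, hs2, self_mem_nhdsWithin] with s h1 h2 h3
    have hs' : (1 : ℝ) < s := h3
    have h4 := S_le hr0 hs' h2 (D := 100) (by norm_num)
    rw [← hbdef, hQ] at h4
    have h5 : (1 + 1 / ((100 : ℕ) : ℝ)) ^ 2 = 1.0201 := by norm_num
    rw [h5] at h4
    have h6 : 0 < s - 1 := by linarith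
    calc (s - 1) * S r s ≤ (s - 1) * (1.0201 * (b / (b - 1) * H r s) + Cst r 100) := by gcongr
      _ = 1.0201 * (b / (b - 1) * ((s - 1) * H r s)) + (s - 1) * Cst r 100 := by ring
      _ ≤ 1.0201 * (b / (b - 1) * c) + (s - 1) * Cst r 100 := by gcongr
  have hlim2 : Tendsto (fun s : ℝ => 1.0201 * (b / (b - 1) * c) + (s - 1) * Cst r 100) (𝓝[>] 1)
      (𝓝 (1.0201 * (b / (b - 1) * c) + (1 - 1) * Cst r 100)) := by
    have : Continuous fun s : ℝ => 1.0201 * (b / (b - 1) * c) + (s - 1) * Cst r 100 := by fun_prop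
    exact (this.tendsto 1).mono_left nhdsWithin_le_nhds
  have hfin := le_of_tendsto_of_tendsto hT hlim2 hbound
  rw [sub_self, zero_mul, add_zero] at hfin
  have h7 : 1.0201 * (b / (b - 1) * c) < (b - 1) / 2 := by
    calc 1.0201 * (b / (b - 1) * c) < 1.0201 * (b / (b - 1) * ((b - 1) ^ 2 / (2 * 1.0201 * b))) := by
          gcongr
      _ = (b - 1) / 2 := by
          field_simp
  linarith

end Pool.Agent.TH840.EB
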